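import Pool.Agent.H235R2.SefeFinal

set_option autoImplicit false

namespace Pool.Agent.Results.MP_3c943f_co.SefeCounterexample

open Pool.Agent.H235R2.Sefe

/-- **The Hanani–Tutte criterion for simultaneous embedding with fixed edges fails.** There are
finite graphs `G₁`, `G₂` (on a common vertex set) such that some drawing of `G₁ ∪ G₂` has
`siocr = 0`, hence `siocr(G₁, G₂) = 0`, but the pair admits no simultaneous embedding with fixed
edges. In the example `G₁` consists of three hubs, every two of them joined by three paths of
length three, `G₂` consists at every hub of three triangles on the neighbours of the hub, and the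
nine paths are matched by the triangles so as to wind three times around. -/
theorem result : ∃ (V : Type) (_ : Finite V) (G₁ G₂ : SimpleGraph V),
    (∃ D : Drawing (G₁ ⊔ G₂), D.siocr = 0) ∧ siocr G₁ G₂ = 0 ∧ ¬ AdmitsSEFE G₁ G₂ := by
  refine ⟨Fin 21, inferInstance, Pool.Agent.H235R2.NoSefe.G1, Pool.Agent.H235R2.NoSefe.G2,
    ⟨_, Pool.Agent.H235R2.Final.siocr_zero⟩, ?_, Pool.Agent.H235R2.NoSefe.no_sefe⟩
  exact Nat.eq_zero_of_le_zero (Nat.sInf_le ⟨_, Pool.Agent.H235R2.Final.siocr_zero⟩)

end Pool.Agent.Results.MP_3c943f_co.SefeCounterexample
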